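import Pool.Agent.MP_843cf2_an.Mg.Own

open Pool.Agent.MP_843cf2_an.Own

universe u

/-- The dichotomy for restriction algebras: a set of characters of a compact abelian group is a
Sidon set, or only analytic functions operate on its restriction algebra. -/
theorem Pool.Agent.Results.MP_843cf2_an.Dichotomy.result
    (G : Type u) [CommGroup G] [TopologicalSpace G] [IsTopologicalGroup G] [CompactSpace G]
    [MeasurableSpace G] [BorelSpace G] (μ : MeasureTheory.Measure G) [μ.IsHaarMeasure]
    (Λ : Set (PontryaginDual G)) :
    IsSidon Λ ∨ ∀ F : Set.Icc (-1 : ℝ) 1 → ℂ, OperatesOn μ Λ F → AnalyticNearZero F :=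
  dichotomy_own μ Λ
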